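import Mathlib
set_option autoImplicit false

namespace Pool.Agent.Results.MP_bd7f44_an.NonSupercoercive

open Set Filter Topology

/-- The Euclidean space `ℝⁿ`. -/
abbrev E (n : ℕ) : Type := EuclideanSpace ℝ (Fin n)

variable {n : ℕ}

/-- Effective domain `dom f` of `f : ℝⁿ → (-∞, +∞]`. -/
def edom (f : E n → EReal) : Set (E n) := {x | f x ≠ ⊤}

/-- The real-valued representative of `f` (equal to `f` on `dom f` when `f` is proper). -/
noncomputable def re (f : E n → EReal) : E n → ℝ := fun x => (f x).toReal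

/-- `f` is proper: never `-∞` and not identically `+∞`. -/
def IsProper (f : E n → EReal) : Prop := (∀ x, f x ≠ ⊥) ∧ ∃ x, f x ≠ ⊤

/-- `f` is convex: its epigraph in `ℝⁿ × ℝ` is convex. -/
def IsConvexFun (f : E n → EReal) : Prop :=
  Convex ℝ {p : E n × ℝ | f p.1 ≤ (p.2 : EReal)}

/-- The (Fenchel) subdifferential of `f` at `x`. -/
def subdifferential (f : E n → EReal) (x : E n) : Set (E n) :=
  {v | ∀ z, f x + ((inner ℝ v (z - x) : ℝ) : EReal) ≤ f z}

/-- Essential smoothness (Rockafellar): `U = int dom f` is nonempty, `f` is differentiable on `U`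
and `‖∇f(u_k)‖ → ∞` whenever `u_k ∈ U` converges to a boundary point of `U`. -/
def EssentiallySmooth (f : E n → EReal) : Prop :=
  (interior (edom f)).Nonempty ∧
  (∀ x ∈ interior (edom f), DifferentiableAt ℝ (re f) x) ∧
  ∀ (u : ℕ → E n) (a : E n), (∀ k, u k ∈ interior (edom f)) → Tendsto u atTop (𝓝 a) →
    a ∈ frontier (interior (edom f)) →
    Tendsto (fun k => ‖gradient (re f) (u k)‖) atTop atTop

/-- Essential strict convexity (Rockafellar): `f` is strictly convex on every convex subset of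
`dom ∂f`. -/
def EssentiallyStrictlyConvex (f : E n → EReal) : Prop :=
  ∀ S : Set (E n), S ⊆ {x | (subdifferential f x).Nonempty} → Convex ℝ S →
    StrictConvexOn ℝ S (re f)

/-- Legendre functions. -/
structure IsLegendre (f : E n → EReal) : Prop where
  proper : IsProper f
  lsc : LowerSemicontinuous f
  convex : IsConvexFun f
  essSmooth : EssentiallySmooth f
  essStrict : EssentiallyStrictlyConvex f

/-- Supercoercivity: `f(x)/‖x‖ → +∞` as `‖x‖ → ∞`. -/
def IsSupercoercive (f : E n → EReal) : Prop :=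
  Tendsto (fun x => f x / ((‖x‖ : ℝ) : EReal)) (Bornology.cobounded (E n)) (𝓝 ⊤)

/-- The Bregman distance `D(x,y) = f(x) - f(y) - ⟨∇f(y), x - y⟩` (for `y ∈ int dom f`;
it is `+∞` for `x ∉ dom f`). -/
noncomputable def bregman (f : E n → EReal) (x y : E n) : EReal :=
  f x - f y - ((inner ℝ (gradient (re f) y) (x - y) : ℝ) : EReal)

/-- The left Bregman projection of `y` onto `C`: the minimisers of `D(·, y)` over `C`. -/
def leftProj (f : E n → EReal) (C : Set (E n)) (y : E n) : Set (E n) :=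
  {x | x ∈ C ∧ ∀ z ∈ C, bregman f x y ≤ bregman f z y}

/-- `C` is a left Chebyshev set: `∅ ≠ C ⊆ U = int dom f` and the left projection of every
`y ∈ U` onto `C` is a singleton. -/
def IsLeftChebyshev (f : E n → EReal) (C : Set (E n)) : Prop :=
  C.Nonempty ∧ C ⊆ interior (edom f) ∧
    ∀ y ∈ interior (edom f), ∃ x, leftProj f C y = {x}

theorem core {E : Type*} [NormedAddCommGroup E] [NormedSpace ℝ E] {U : Set E}
    {φ : E → ℝ} (hcont : ContinuousOn φ U) (hsc : StrictConvexOn ℝ U φ)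
    {d : E} {M : ℝ}
    (hray : ∀ x ∈ U, ∀ t : ℝ, 0 ≤ t → x + t • d ∈ U ∧ φ (x + t • d) ≤ φ x + M * t)
    (ℓ : E →L[ℝ] ℝ) (hℓ : ℓ d = M + 1) {b1 b2 : E} (hb1 : b1 ∈ U) (hb2 : b2 ∈ U)
    (hne : ∀ r : ℝ, b2 - b1 ≠ r • d) :
    ∃ C : Set E, C ⊆ U ∧ C.Nonempty ∧ IsCompact C ∧ ¬ Convex ℝ C ∧
      ∀ G : E →L[ℝ] ℝ, G d ≤ M →
        ∃! x, x ∈ C ∧ ∀ z ∈ C, φ x - G x ≤ φ z - G z := by
  have hUconv : Convex ℝ U := hsc.1
  -- the tilted function
  set L : E → ℝ := fun x => φ x - ℓ x with hL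
  have hLcont : ContinuousOn L U := hcont.sub ℓ.continuous.continuousOn
  have hLsc : StrictConvexOn ℝ U L := by
    refine ⟨hUconv, ?_⟩
    intro x hx y hy hxy a b ha hb hab
    have h1 := hsc.2 hx hy hxy ha hb hab
    simp only [hL, map_add, map_smul, smul_eq_mul] at h1 ⊢
    linarith
  have hLray : ∀ x ∈ U, ∀ t : ℝ, 0 ≤ t → L (x + t • d) ≤ L x - t := by
    intro x hx t ht
    have h1 := (hray x hx t ht).2
    simp only [hL, map_add, map_smul, smul_eq_mul, hℓ]
    linarith
  -- parametrization of the strip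
  set p : ℝ × ℝ → E := fun q => b1 + q.1 • (b2 - b1) + q.2 • d with hp
  have hpc : Continuous p := by fun_prop
  have hseg : ∀ s ∈ Icc (0:ℝ) 1, b1 + s • (b2 - b1) ∈ U := by
    intro s hs
    exact hUconv.add_smul_sub_mem hb1 hb2 hs
  have hpU : ∀ s ∈ Icc (0:ℝ) 1, ∀ t : ℝ, 0 ≤ t → p (s, t) ∈ U := by
    intro s hs t ht
    exact (hray _ (hseg s hs) t ht).1
  -- minimum and maximum of L on the base segment
  have hbc : ContinuousOn (fun s : ℝ => L (b1 + s • (b2 - b1))) (Icc 0 1) := by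
    refine hLcont.comp (by fun_prop) ?_
    intro s hs; exact hseg s hs
  obtain ⟨s0, hs0, hmin⟩ := isCompact_Icc.exists_isMinOn (nonempty_Icc.2 zero_le_one) hbc
  obtain ⟨s1, hs1, hmax⟩ := isCompact_Icc.exists_isMaxOn (nonempty_Icc.2 zero_le_one) hbc
  set c : ℝ := L (b1 + s0 • (b2 - b1)) - 1 with hc
  set T : ℝ := L (b1 + s1 • (b2 - b1)) - c with hT
  have hbase : ∀ s ∈ Icc (0:ℝ) 1, c + 1 ≤ L (b1 + s • (b2 - b1)) := by
    intro s hs
    have := hmin hs
    simp only [mem_ofPred_eq] at this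
    rw [hc]; linarith
  have hbaseM : ∀ s ∈ Icc (0:ℝ) 1, L (b1 + s • (b2 - b1)) ≤ c + T := by
    intro s hs
    have := hmax hs
    simp only [mem_ofPred_eq] at this
    rw [hT]; linarith
  have hTpos : 0 < T := by
    have h1 := hbase 0 (by simp)
    have h2 := hbaseM 0 (by simp)
    linarith
  have htop : ∀ s ∈ Icc (0:ℝ) 1, ∀ t : ℝ, 0 ≤ t → c ≤ L (p (s,t)) → t ≤ T := by
    intro s hs t ht hct
    have h1 := hLray _ (hseg s hs) t ht
    have h2 := hbaseM s hs
    simp only [hp] at hct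
    linarith
  -- the set
  set K : Set (ℝ × ℝ) := {q | q ∈ Icc (0:ℝ) 1 ×ˢ Icc (0:ℝ) T ∧ c ≤ L (p q)} with hK
  have hKc : IsCompact K := by
    have h1 : IsCompact (Icc (0:ℝ) 1 ×ˢ Icc (0:ℝ) T) := isCompact_Icc.prod isCompact_Icc
    have h2 : ContinuousOn (fun q => L (p q)) (Icc (0:ℝ) 1 ×ˢ Icc (0:ℝ) T) := by
      refine hLcont.comp hpc.continuousOn ?_
      rintro ⟨s, t⟩ ⟨hs, ht⟩
      exact hpU s hs t ht.1
    have h3 : IsClosed K := by
      have := h2.preimage_isClosed_of_isClosed h1.isClosed (isClosed_Ici (a := c))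
      exact this
    exact h1.of_isClosed_subset h3 (fun q hq => hq.1)
  set C : Set E := p '' K with hC
  have hCU : C ⊆ U := by
    rintro x ⟨⟨s, t⟩, ⟨⟨hs, ht⟩, -⟩, rfl⟩
    exact hpU s hs t ht.1
  have hCL : ∀ x ∈ C, c ≤ L x := by
    rintro x ⟨q, hq, rfl⟩
    exact hq.2
  have hCmem : ∀ s ∈ Icc (0:ℝ) 1, ∀ t : ℝ, 0 ≤ t → c ≤ L (p (s,t)) → p (s,t) ∈ C := by
    intro s hs t ht h
    exact ⟨(s,t), ⟨⟨hs, ht, htop s hs t ht h⟩, h⟩, rfl⟩
  have hCcomp : IsCompact C := hKc.image hpc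
  have hCne : C.Nonempty := by
    refine ⟨p (0,0), hCmem 0 (by simp) 0 le_rfl ?_⟩
    have := hbase 0 (by simp)
    simp only [hp, zero_smul, add_zero] at this ⊢
    linarith
  -- level points above the base
  have hlevel : ∀ s ∈ Icc (0:ℝ) 1, ∀ t : ℝ, 0 ≤ t → L (p (s,t)) < c →
      ∃ t' : ℝ, 0 ≤ t' ∧ t' < t ∧ L (p (s,t')) = c := by
    intro s hs t ht hlt
    have h1 : ContinuousOn (fun r : ℝ => L (p (s, r))) (Icc 0 t) := by
      refine hLcont.comp (by fun_prop) ?_
      intro r hr; exact hpU s hs r hr.1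
    have h2 := intermediate_value_Icc' ht h1
    have h3 : c ∈ Icc (L (p (s,t))) (L (p (s,0))) := by
      refine ⟨hlt.le, ?_⟩
      have := hbase s hs
      simp only [hp, zero_smul, add_zero] at this ⊢
      linarith
    obtain ⟨r, hr, hrc⟩ := h2 h3
    refine ⟨r, hr.1, lt_of_le_of_ne hr.2 ?_, hrc⟩
    rintro rfl
    simp only at hrc
    linarith
  -- midpoint in the strip
  have hmid : ∀ s ∈ Icc (0:ℝ) 1, ∀ s' ∈ Icc (0:ℝ) 1, ∀ t t' : ℝ,
      (1/2:ℝ) • p (s,t) + (1/2:ℝ) • p (s',t') = p ((s+s')/2, (t+t')/2) := by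
    intro s _ s' _ t t'
    simp only [hp]
    module
  refine ⟨C, hCU, hCne, hCcomp, ?_, ?_⟩
  · -- not convex
    intro hconv
    have hT2 : ∀ s ∈ Icc (0:ℝ) 1, ∃ t' : ℝ, 0 ≤ t' ∧ L (p (s,t')) = c := by
      intro s hs
      have h1 : L (p (s, T+1)) < c := by
        by_contra hcon
        push Not at hcon
        have := htop s hs (T+1) (by linarith) hcon
        linarith
      obtain ⟨t', h2, -, h3⟩ := hlevel s hs (T+1) (by linarith) h1
      exact ⟨t', h2, h3⟩
    obtain ⟨t0, ht0, hL0⟩ := hT2 0 (by simp)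
    obtain ⟨t1, ht1, hL1⟩ := hT2 1 (by simp)
    have hm0 := hCmem 0 (by simp) t0 ht0 hL0.ge
    have hm1 := hCmem 1 (by simp) t1 ht1 hL1.ge
    have hne' : p (0,t0) ≠ p (1,t1) := by
      intro h
      simp only [hp] at h
      apply hne (t0 - t1)
      have h' : b1 + (0:ℝ) • (b2 - b1) + t0 • d - (b1 + t1 • d)
          = b1 + (1:ℝ) • (b2 - b1) + t1 • d - (b1 + t1 • d) := by rw [h]
      have h1 : b1 + (0:ℝ) • (b2 - b1) + t0 • d - (b1 + t1 • d) = (t0 - t1) • d := by module
      have h2 : b1 + (1:ℝ) • (b2 - b1) + t1 • d - (b1 + t1 • d) = b2 - b1 := by module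
      rw [h1, h2] at h'
      exact h'.symm
    have hmC := hconv hm0 hm1 (a := 1/2) (b := 1/2) (by norm_num) (by norm_num) (by norm_num)
    have hlt := hLsc.2 (hCU hm0) (hCU hm1) hne' (by norm_num : (0:ℝ) < 1/2)
      (by norm_num : (0:ℝ) < 1/2) (by norm_num)
    have := hCL _ hmC
    rw [hL0, hL1] at hlt
    simp only [smul_eq_mul] at hlt
    linarith
  · -- unique minimiser
    intro G hG
    have hhc : ContinuousOn (fun x => φ x - G x) C :=
      (hcont.mono hCU).sub G.continuous.continuousOn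
    obtain ⟨x, hxC, hxmin⟩ := hCcomp.exists_isMinOn hCne hhc
    refine ⟨x, ⟨hxC, fun z hz => hxmin hz⟩, ?_⟩
    rintro y ⟨hyC, hymin⟩
    by_contra hyx
    -- both are minimisers
    have hxy : φ x - G x ≤ φ y - G y := hxmin hyC
    have hyx' : φ y - G y ≤ φ x - G x := hymin x hxC
    have heq : φ y - G y = φ x - G x := le_antisymm hyx' hxy
    have hm : ∀ z ∈ C, φ x - G x ≤ φ z - G z := fun z hz => hxmin hz
    obtain ⟨⟨s, t⟩, ⟨⟨hs, ht⟩, hcx⟩, rfl⟩ := hxC
    obtain ⟨⟨s', t'⟩, ⟨⟨hs', ht'⟩, hcy⟩, rfl⟩ := hyC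
    have hpx := hpU s hs t ht.1
    have hpy := hpU s' hs' t' ht'.1
    have hsm : (s + s')/2 ∈ Icc (0:ℝ) 1 := ⟨by linarith [hs.1, hs'.1], by linarith [hs.2, hs'.2]⟩
    have htm : 0 ≤ (t + t')/2 := by linarith [ht.1, ht'.1]
    set m := p ((s+s')/2, (t+t')/2) with hmdef
    have hme : (1/2:ℝ) • p (s,t) + (1/2:ℝ) • p (s',t') = m := hmid s hs s' hs' t t'
    have hmU : m ∈ U := hpU _ hsm _ htm
    have hφm : φ m < (1/2) * φ (p (s,t)) + (1/2) * φ (p (s',t')) := by
      have := hsc.2 hpx hpy (Ne.symm hyx) (by norm_num : (0:ℝ) < 1/2)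
        (by norm_num : (0:ℝ) < 1/2) (by norm_num)
      rw [hme] at this
      simpa only [smul_eq_mul] using this
    have hGm : G m = (1/2) * G (p (s,t)) + (1/2) * G (p (s',t')) := by
      rw [← hme]; simp
    have hℓm : ℓ m = (1/2) * ℓ (p (s,t)) + (1/2) * ℓ (p (s',t')) := by
      rw [← hme]; simp
    by_cases hmc : c ≤ L m
    · have := hm m (hCmem _ hsm _ htm hmc)
      linarith
    · push Not at hmc
      obtain ⟨r, hr0, hrt, hrc⟩ := hlevel _ hsm _ htm hmc
      have hrC := hCmem _ hsm r hr0 hrc.ge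
      have h1 := hm _ hrC
      have hdiff : p ((s+s')/2, r) = m - ((t+t')/2 - r) • d := by
        simp only [hmdef, hp]
        module
      have hG2 : G (p ((s+s')/2, r)) = G m - ((t+t')/2 - r) * G d := by
        rw [hdiff]; simp
      have hℓ2 : ℓ (p ((s+s')/2, r)) = ℓ m - ((t+t')/2 - r) * (M+1) := by
        rw [hdiff]; simp [hℓ]
      have hLr : φ (p ((s+s')/2, r)) - ℓ (p ((s+s')/2, r)) = c := hrc
      have hcx' : c ≤ φ (p (s,t)) - ℓ (p (s,t)) := hcx
      have hcy' : c ≤ φ (p (s',t')) - ℓ (p (s',t')) := hcy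
      have hτ : 0 < (t+t')/2 - r := by linarith
      have hmul : ((t+t')/2 - r) * G d ≤ ((t+t')/2 - r) * M :=
        mul_le_mul_of_nonneg_left hG hτ.le
      nlinarith

theorem coe_re {f : E n → EReal} (hp : IsProper f) {x : E n} (hx : x ∈ edom f) :
    ((re f x : ℝ) : EReal) = f x :=
  EReal.coe_toReal hx (hp.1 x)

theorem convexOn_re {f : E n → EReal} (hp : IsProper f) (hc : IsConvexFun f) :
    ConvexOn ℝ (edom f) (re f) := by
  have key : ∀ ⦃x : E n⦄, x ∈ edom f → ∀ ⦃y : E n⦄, y ∈ edom f → ∀ ⦃a b : ℝ⦄, 0 ≤ a → 0 ≤ b →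
      a + b = 1 → f (a • x + b • y) ≤ ((a * re f x + b * re f y : ℝ) : EReal) := by
    intro x hx y hy a b ha hb hab
    have h1 : ((x, re f x) : E n × ℝ) ∈ {p : E n × ℝ | f p.1 ≤ (p.2 : EReal)} := by
      simp only [mem_ofPred_eq]; exact (coe_re hp hx).ge
    have h2 : ((y, re f y) : E n × ℝ) ∈ {p : E n × ℝ | f p.1 ≤ (p.2 : EReal)} := by
      simp only [mem_ofPred_eq]; exact (coe_re hp hy).ge
    have h3 := hc h1 h2 ha hb hab
    simpa using h3
  have hdom : ∀ ⦃x : E n⦄, x ∈ edom f → ∀ ⦃y : E n⦄, y ∈ edom f → ∀ ⦃a b : ℝ⦄, 0 ≤ a → 0 ≤ b →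
      a + b = 1 → a • x + b • y ∈ edom f := by
    intro x hx y hy a b ha hb hab
    exact ne_top_of_le_ne_top (EReal.coe_ne_top _) (key hx hy ha hb hab)
  refine ⟨hdom, ?_⟩
  intro x hx y hy a b ha hb hab
  have h1 := key hx hy ha hb hab
  have h2 := hdom hx hy ha hb hab
  rw [← coe_re hp h2] at h1
  simpa using EReal.coe_le_coe_iff.1 h1

/-- the gradient inequality -/
theorem grad_ineq {f : E n → EReal} (hp : IsProper f) (hc : IsConvexFun f) {x z : E n}
    (hx : x ∈ edom f) (hd : DifferentiableAt ℝ (re f) x) (hz : z ∈ edom f) :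
    re f x + fderiv ℝ (re f) x (z - x) ≤ re f z := by
  have hcv := convexOn_re hp hc
  set φ : ℝ → ℝ := fun s => re f (x + s • (z - x)) with hφ
  have h1 : ConvexOn ℝ (Icc (0:ℝ) 1) φ := by
    refine ⟨convex_Icc 0 1, ?_⟩
    intro s hs t ht a b ha hb hab
    have h2 := hcv.2 (hcv.1.add_smul_sub_mem hx hz hs) (hcv.1.add_smul_sub_mem hx hz ht) ha hb hab
    have h3 : a • (x + s • (z - x)) + b • (x + t • (z - x))
        = x + (a • s + b • t) • (z - x) := by
      have : b = 1 - a := by linarith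
      subst this
      simp only [smul_eq_mul]
      module
    rw [h3] at h2
    exact h2
  have h2 : HasDerivAt φ (fderiv ℝ (re f) x (z - x)) 0 := by
    have h3 : HasFDerivAt (re f) (fderiv ℝ (re f) x) (x + (0:ℝ) • (z - x)) := by
      rw [zero_smul, add_zero]; exact hd.hasFDerivAt
    have h4 : HasDerivAt (fun s : ℝ => x + s • (z - x)) (z - x) 0 := by
      have := ((hasDerivAt_id (0:ℝ)).smul_const (z - x)).const_add x
      simpa using this
    exact h3.comp_hasDerivAt (0:ℝ) h4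
  have h3 := h1.le_slope_of_hasDerivAt (x := 0) (y := 1) (by simp) (by simp) one_pos h2
  simp only [slope, hφ, sub_zero, inv_one, one_smul, zero_smul, add_zero, vsub_eq_sub,
    add_sub_cancel] at h3
  linarith

theorem interior_subset_domSub {f : E n → EReal} (hf : IsLegendre f) :
    interior (edom f) ⊆ {x | (subdifferential f x).Nonempty} := by
  intro x hx
  have hxd : x ∈ edom f := interior_subset hx
  have hd := hf.essSmooth.2.1 x hx
  refine ⟨gradient (re f) x, ?_⟩
  intro z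
  by_cases hz : z ∈ edom f
  · have h := grad_ineq hf.proper hf.convex hxd hd hz
    have h2 : inner ℝ (gradient (re f) x) (z - x) = fderiv ℝ (re f) x (z - x) := by
      simp [gradient]
    rw [← coe_re hf.proper hxd, ← coe_re hf.proper hz, h2, ← EReal.coe_add]
    exact EReal.coe_le_coe_iff.2 h
  · have : f z = ⊤ := by simpa [edom] using hz
    rw [this]; exact le_top

theorem strictConvexOn_re {f : E n → EReal} (hf : IsLegendre f) :
    StrictConvexOn ℝ (interior (edom f)) (re f) :=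
  hf.essStrict _ (interior_subset_domSub hf)
    ((convexOn_re hf.proper hf.convex).1.interior)

theorem exists_direction {f : E n → EReal} (hf : IsLegendre f) (hns : ¬ IsSupercoercive f) :
    ∃ (d : E n) (M : ℝ), ‖d‖ = 1 ∧
      ∀ x ∈ edom f, ∀ t : ℝ, 0 ≤ t → x + t • d ∈ edom f ∧ re f (x + t • d) ≤ re f x + M * t := by
  have hp := hf.proper
  -- points going to infinity on which `f ≤ M‖x‖`
  obtain ⟨M, hM⟩ : ∃ M : ℝ, ∀ R : ℝ, ∃ x : E n, R ≤ ‖x‖ ∧ f x ≤ ((M * ‖x‖ : ℝ) : EReal) := by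
    unfold IsSupercoercive at hns
    rw [EReal.tendsto_nhds_top_iff_real] at hns
    push Not at hns
    obtain ⟨M, hM⟩ := hns
    refine ⟨M, fun R => ?_⟩
    have h1 : ∀ᶠ x in Bornology.cobounded (E n), max R 1 ≤ ‖x‖ :=
      (tendsto_norm_cobounded_atTop (E := E n)).eventually (eventually_ge_atTop _)
    obtain ⟨x, hx1, hx2⟩ := (hM.and_eventually h1).exists
    refine ⟨x, (le_max_left _ _).trans hx2, ?_⟩
    have hpos : 0 < ‖x‖ := lt_of_lt_of_le one_pos ((le_max_right _ _).trans hx2)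
    have hpos' : (0 : EReal) < ((‖x‖ : ℝ) : EReal) := by exact_mod_cast hpos
    have h3 := (EReal.div_le_iff_le_mul hpos' (EReal.coe_ne_top _)).1 hx1
    rw [← EReal.coe_mul] at h3
    rwa [mul_comm] at h3
  choose! u hu1 hu2 using hM
  -- normalised directions
  set v : ℕ → E n := fun k => u ((k:ℝ) + 1) with hv
  have hv1 : ∀ k : ℕ, (k:ℝ) + 1 ≤ ‖v k‖ := fun k => hu1 _
  have hv2 : ∀ k : ℕ, f (v k) ≤ ((M * ‖v k‖ : ℝ) : EReal) := fun k => hu2 _
  have hvpos : ∀ k, 0 < ‖v k‖ := fun k => lt_of_lt_of_le (by positivity) (hv1 k)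
  have hsph : ∀ k, (‖v k‖⁻¹ • v k) ∈ Metric.sphere (0 : E n) 1 := by
    intro k
    simp [norm_smul, (hvpos k).ne']
  obtain ⟨d, hd, ψ, hψ, hlim⟩ := (isCompact_sphere (0 : E n) 1).tendsto_subseq hsph
  refine ⟨d, M, by simpa using hd, ?_⟩
  intro x hx t ht
  -- the norms along the subsequence tend to infinity
  have hnorm : Tendsto (fun k => ‖v (ψ k)‖) atTop atTop := by
    refine tendsto_atTop_mono (fun k => hv1 (ψ k)) ?_
    exact tendsto_atTop_add_const_right _ _ (tendsto_natCast_atTop_atTop.comp hψ.tendsto_atTop)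
  have hinv : Tendsto (fun k => t * ‖v (ψ k)‖⁻¹) atTop (𝓝 0) := by
    have := (tendsto_inv_atTop_zero.comp hnorm).const_mul t
    simpa using this
  have hclosed : IsClosed {p : E n × ℝ | f p.1 ≤ (p.2 : EReal)} := by
    have h1 := hf.lsc.isClosed_epigraph
    exact h1.preimage (continuous_fst.prodMk (continuous_coe_real_ereal.comp continuous_snd))
  set s : ℕ → ℝ := fun k => t * ‖v (ψ k)‖⁻¹ with hs
  have hs0 : ∀ k, 0 ≤ s k := fun k => mul_nonneg ht (inv_nonneg.2 (norm_nonneg _))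
  have hs1 : ∀ᶠ k in atTop, s k ≤ 1 := by
    have := hinv.eventually (eventually_lt_nhds zero_lt_one)
    filter_upwards [this] with k hk using hk.le
  have hmem : ∀ᶠ k in atTop, (((1 - s k) • x + s k • v (ψ k), (1 - s k) * re f x + t * M) :
      E n × ℝ) ∈ {p : E n × ℝ | f p.1 ≤ (p.2 : EReal)} := by
    filter_upwards [hs1] with k hk
    have h1 : ((x, re f x) : E n × ℝ) ∈ {p : E n × ℝ | f p.1 ≤ (p.2 : EReal)} := by
      simp only [mem_ofPred_eq]; exact (coe_re hp hx).ge
    have h2 : ((v (ψ k), M * ‖v (ψ k)‖) : E n × ℝ) ∈ {p : E n × ℝ | f p.1 ≤ (p.2 : EReal)} := by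
      simp only [mem_ofPred_eq]; exact hv2 _
    have h3 := hf.convex h1 h2 (sub_nonneg.2 hk) (hs0 k) (by ring)
    have h4 : s k * (M * ‖v (ψ k)‖) = t * M := by
      rw [hs]
      have := (hvpos (ψ k)).ne'
      field_simp
    have h5 : (1 - s k) • ((x, re f x) : E n × ℝ) + s k • ((v (ψ k), M * ‖v (ψ k)‖) : E n × ℝ)
        = ((1 - s k) • x + s k • v (ψ k), (1 - s k) * re f x + t * M) := by
      simp [h4]
    rwa [h5] at h3
  have hlim2 : Tendsto (fun k => (((1 - s k) • x + s k • v (ψ k), (1 - s k) * re f x + t * M) :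
      E n × ℝ)) atTop (𝓝 ((x + t • d, re f x + t * M) : E n × ℝ)) := by
    have ha : Tendsto (fun k => 1 - s k) atTop (𝓝 1) := by
      have := (tendsto_const_nhds (x := (1:ℝ))).sub hinv
      simpa using this
    have hb : Tendsto (fun k => s k • v (ψ k)) atTop (𝓝 (t • d)) := by
      have h1 : (fun k => s k • v (ψ k)) = fun k => t • (‖v (ψ k)‖⁻¹ • v (ψ k)) := by
        funext k; rw [hs, smul_smul]
      rw [h1]
      exact hlim.const_smul t
    have h1 : Tendsto (fun k => (1 - s k) • x + s k • v (ψ k)) atTop (𝓝 (x + t • d)) := by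
      have := (ha.smul_const x).add hb
      simpa using this
    have h2 : Tendsto (fun k => (1 - s k) * re f x + t * M) atTop (𝓝 (re f x + t * M)) := by
      have := (ha.mul_const (re f x)).add_const (t * M)
      simpa using this
    exact h1.prodMk_nhds h2
  have hfin := hclosed.mem_of_tendsto hlim2 hmem
  simp only [mem_ofPred_eq] at hfin
  have hdom : x + t • d ∈ edom f := ne_top_of_le_ne_top (EReal.coe_ne_top _) hfin
  refine ⟨hdom, ?_⟩
  rw [← coe_re hp hdom] at hfin
  have := EReal.coe_le_coe_iff.1 hfin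
  linarith


theorem exists_not_smul (hn : 2 ≤ n) (d : E n) : ∃ e : E n, ∀ r : ℝ, e ≠ r • d := by
  by_contra hcon
  push Not at hcon
  have htop : Submodule.span ℝ {d} = ⊤ := by
    rw [eq_top_iff]
    intro e _
    obtain ⟨r, hr⟩ := hcon e
    rw [hr]
    exact Submodule.smul_mem _ _ (Submodule.mem_span_singleton_self d)
  have h1 : Module.finrank ℝ (E n) = n := by simp
  have h2 := finrank_span_le_card (R := ℝ) ({d} : Set (E n))
  rw [htop, finrank_top, h1] at h2
  simp at h2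
  omega

theorem bregman_le_iff {f : E n → EReal} (hp : IsProper f) {x z y : E n}
    (hx : x ∈ edom f) (hz : z ∈ edom f) (hy : y ∈ edom f) :
    bregman f x y ≤ bregman f z y ↔
      re f x - fderiv ℝ (re f) y x ≤ re f z - fderiv ℝ (re f) y z := by
  have h1 : ∀ w : E n, inner ℝ (gradient (re f) y) w = fderiv ℝ (re f) y w := by
    intro w; simp [gradient]
  unfold bregman
  rw [← coe_re hp hx, ← coe_re hp hz, ← coe_re hp hy, h1, h1, ← EReal.coe_sub, ← EReal.coe_sub,
    ← EReal.coe_sub, ← EReal.coe_sub, EReal.coe_le_coe_iff, map_sub, map_sub]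
  constructor <;> intro h <;> linarith

/-- The main construction: every non-supercoercive Legendre function on `ℝⁿ`, `n ≥ 2`, has a
compact left Chebyshev set which is not convex. -/
theorem exists_nonconvex (hn : 2 ≤ n) {f : E n → EReal} (hf : IsLegendre f)
    (hns : ¬ IsSupercoercive f) :
    ∃ C : Set (E n), IsLeftChebyshev f C ∧ IsCompact C ∧ ¬ Convex ℝ C := by
  obtain ⟨d, M, hd1, hray⟩ := exists_direction hf hns
  have hsub : interior (edom f) ⊆ edom f := interior_subset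
  have hrayU : ∀ x ∈ interior (edom f), ∀ t : ℝ, 0 ≤ t →
      x + t • d ∈ interior (edom f) ∧ re f (x + t • d) ≤ re f x + M * t := by
    intro x hx t ht
    refine ⟨?_, (hray x (hsub hx) t ht).2⟩
    have hopen : IsOpen ((fun z : E n => z - t • d) ⁻¹' interior (edom f)) :=
      isOpen_interior.preimage (by fun_prop)
    refine interior_maximal ?_ hopen ?_
    · intro z hz
      have := (hray _ (hsub hz) t ht).1
      simpa using this
    · simpa using hx
  obtain ⟨x0, hx0⟩ := hf.essSmooth.1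
  obtain ⟨e, he⟩ := exists_not_smul hn d
  -- a second base point
  obtain ⟨δ, hδ, hδU⟩ : ∃ δ : ℝ, 0 < δ ∧ x0 + δ • e ∈ interior (edom f) := by
    have hc : Tendsto (fun δ : ℝ => x0 + δ • e) (𝓝[>] 0) (𝓝 x0) := by
      have : Tendsto (fun δ : ℝ => x0 + δ • e) (𝓝 0) (𝓝 (x0 + (0:ℝ) • e)) :=
        (Continuous.tendsto (by fun_prop) 0)
      rw [zero_smul, add_zero] at this
      exact this.mono_left nhdsWithin_le_nhds
    have h1 := hc.eventually (isOpen_interior.mem_nhds hx0)
    have h2 : ∀ᶠ δ : ℝ in 𝓝[>] 0, 0 < δ := eventually_mem_nhdsWithin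
    obtain ⟨δ, h3, h4⟩ := (h1.and h2).exists
    exact ⟨δ, h4, h3⟩
  have hne : ∀ r : ℝ, (x0 + δ • e) - x0 ≠ r • d := by
    intro r hr
    rw [add_sub_cancel_left] at hr
    apply he (δ⁻¹ * r)
    rw [mul_smul, ← hr, smul_smul, inv_mul_cancel₀ hδ.ne', one_smul]
  have hcont : ContinuousOn (re f) (interior (edom f)) := fun x hx =>
    (hf.essSmooth.2.1 x hx).continuousAt.continuousWithinAt
  set ℓ : E n →L[ℝ] ℝ := (M + 1) • innerSL ℝ d with hℓdef
  have hℓ : ℓ d = M + 1 := by
    simp [hℓdef, hd1]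
  obtain ⟨C, hCU, hCne, hCc, hCnc, hCmin⟩ :=
    core hcont (strictConvexOn_re hf) hrayU ℓ hℓ hx0 hδU hne
  refine ⟨C, ⟨hCne, hCU, ?_⟩, hCc, hCnc⟩
  intro y hy
  have hG : fderiv ℝ (re f) y d ≤ M := by
    have h1 := hray y (hsub hy) 1 zero_le_one
    have h2 := grad_ineq hf.proper hf.convex (hsub hy) (hf.essSmooth.2.1 y hy) h1.1
    have h3 : y + (1:ℝ) • d - y = d := by simp
    rw [h3] at h2
    linarith [h1.2]
  obtain ⟨x, ⟨hxC, hxmin⟩, hxuniq⟩ := hCmin _ hG
  refine ⟨x, ?_⟩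
  ext w
  simp only [leftProj, mem_ofPred_eq, mem_singleton_iff]
  constructor
  · rintro ⟨hwC, hwmin⟩
    refine hxuniq w ⟨hwC, fun z hz => ?_⟩
    exact (bregman_le_iff hf.proper (hsub (hCU hwC)) (hsub (hCU hz)) (hsub hy)).1 (hwmin z hz)
  · rintro rfl
    refine ⟨hxC, fun z hz => ?_⟩
    exact (bregman_le_iff hf.proper (hsub (hCU hxC)) (hsub (hCU hz)) (hsub hy)).2 (hxmin z hz)

/-- The function `x ↦ ∑ exp(x_i)` is a Legendre function which is not supercoercive. -/
theorem exists_legendre (hn : 1 ≤ n) :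
    ∃ f : E n → EReal, IsLegendre f ∧ ¬ IsSupercoercive f := by
  set g : E n → ℝ := fun x => ∑ i, Real.exp (x i) with hg
  have hre : re (fun x => ((g x : ℝ) : EReal)) = g := by
    funext x; simp [re]
  have hdom : edom (fun x => ((g x : ℝ) : EReal)) = univ := by
    ext x; simp [edom]
  have hgd : Differentiable ℝ g := by
    intro x
    simp only [hg]
    fun_prop
  have hgs : StrictConvexOn ℝ univ g := by
    refine ⟨convex_univ, ?_⟩
    intro x _ y _ hxy a b ha hb hab
    obtain ⟨i, hi⟩ : ∃ i, x i ≠ y i := by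
      by_contra h
      push Not at h
      exact hxy (by ext i; exact h i)
    simp only [hg, smul_eq_mul, Finset.mul_sum, ← Finset.sum_add_distrib]
    refine Finset.sum_lt_sum ?_ ⟨i, Finset.mem_univ i, ?_⟩
    · intro j _
      have := strictConvexOn_exp.convexOn.2 (mem_univ (x j)) (mem_univ (y j)) ha.le hb.le hab
      simpa using this
    · have := strictConvexOn_exp.2 (mem_univ (x i)) (mem_univ (y i)) hi ha hb hab
      simpa using this
  refine ⟨fun x => ((g x : ℝ) : EReal), ⟨⟨by simp, 0, by simp⟩, ?_, ?_, ?_, ?_⟩, ?_⟩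
  · exact (continuous_coe_real_ereal.comp hgd.continuous).lowerSemicontinuous
  · unfold IsConvexFun
    have : {p : E n × ℝ | ((g p.1 : ℝ) : EReal) ≤ (p.2 : EReal)}
        = {p : E n × ℝ | p.1 ∈ (univ : Set (E n)) ∧ g p.1 ≤ p.2} := by
      ext p; simp
    rw [this]
    exact hgs.convexOn.convex_epigraph
  · refine ⟨?_, ?_, ?_⟩
    · rw [hdom, interior_univ]; exact univ_nonempty
    · intro x _; rw [hre]; exact hgd x
    · intro u a _ _ ha
      rw [hdom, interior_univ, frontier_univ] at ha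
      exact absurd ha (notMem_empty a)
  · intro S _ hS
    rw [hre]
    exact hgs.subset (subset_univ S) hS
  · intro hsup
    unfold IsSupercoercive at hsup
    rw [EReal.tendsto_nhds_top_iff_real] at hsup
    have h1 := hsup n
    -- go to infinity along the negative diagonal direction of the first coordinate
    have h2 : ∀ᶠ x in Bornology.cobounded (E n), ((n : ℝ) : EReal) * ((‖x‖ : ℝ) : EReal) <
        ((g x : ℝ) : EReal) ∨ ‖x‖ = 0 := by
      filter_upwards [h1] with x hx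
      by_cases h0 : ‖x‖ = 0
      · exact Or.inr h0
      · left
        have hpos : 0 < ‖x‖ := lt_of_le_of_ne (norm_nonneg x) (Ne.symm h0)
        have hpos' : (0 : EReal) < ((‖x‖ : ℝ) : EReal) := by exact_mod_cast hpos
        exact (EReal.lt_div_iff hpos' (EReal.coe_ne_top _)).1 hx
    let i0 : Fin n := ⟨0, hn⟩
    set w : ℕ → E n := fun k => (-(k:ℝ)) • EuclideanSpace.single i0 (1:ℝ) with hw
    have hwn : ∀ k : ℕ, ‖w k‖ = k := by
      intro k
      simp [hw, norm_smul]
    have hwt : Tendsto w atTop (Bornology.cobounded (E n)) := by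
      rw [← tendsto_norm_atTop_iff_cobounded]
      simp only [hwn]
      exact tendsto_natCast_atTop_atTop
    have h3 := hwt.eventually h2
    obtain ⟨k, hk1, hk2⟩ := (h3.and (eventually_ge_atTop 1)).exists
    rw [hwn] at hk1
    have hk3 : ((k:ℕ):ℝ) ≠ 0 := by positivity
    rcases hk1 with hk1 | hk1
    · rw [← EReal.coe_mul, EReal.coe_lt_coe_iff] at hk1
      have h4 : g (w k) ≤ n := by
        have : ∀ i, Real.exp (w k i) ≤ 1 := by
          intro i
          rw [Real.exp_le_one_iff]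
          simp only [hw, PiLp.smul_apply, smul_eq_mul]
          by_cases hi : i = i0
          · simp [hi]
          · simp [hi]
        calc g (w k) ≤ ∑ _i : Fin n, (1:ℝ) := Finset.sum_le_sum (fun i _ => this i)
          _ = n := by simp
      have h5 : (1:ℝ) ≤ k := by exact_mod_cast hk2
      nlinarith [(Nat.cast_nonneg n : (0:ℝ) ≤ n)]
    · exact hk3 hk1

/-- **Answer to Q1 (negative).** For every `n ≥ 2` there are Legendre functions on `ℝⁿ` that are
not supercoercive, and every one of them admits a compact left Chebyshev set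
`C ⊆ int dom f` that is not convex. -/
theorem result :
    ∀ n : ℕ, 2 ≤ n →
      (∃ f : E n → EReal, IsLegendre f ∧ ¬ IsSupercoercive f) ∧
      ∀ f : E n → EReal, IsLegendre f → ¬ IsSupercoercive f →
        ∃ C : Set (E n), IsLeftChebyshev f C ∧ IsCompact C ∧ ¬ Convex ℝ C :=
  fun _n hn => ⟨exists_legendre (by omega), fun _f hf hns => exists_nonconvex hn hf hns⟩

end Pool.Agent.Results.MP_bd7f44_an.NonSupercoercive
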